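import Pool.Agent.Lib.MP_4dac8d_al.AND.Z2

/-!
Question Q1 for virtually metabelian groups: if the Følner function of a finitely generated group with a metabelian
subgroup of finite index is equivalent to its growth function, or only at most exponential, then the group has finite
Assouad–Nagata dimension.  The hypothesis `FolSimV` and the conclusion `FiniteAN` are those of the frozen statement.
-/

set_option autoImplicit false
open Classical
open scoped Pointwise

namespace Pool.Agent.Results.MP_4dac8d_al.VirtuallyMetabelian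

/-- The hypothesis of Q1, word for word as in the frozen statement: Føl ≃ V. -/
def FolSimV (G : Type) [Group G] (S : Finset G) : Prop :=
  ∃ C : ℕ, 0 < C ∧ ∀ n : ℕ,
    sInf {k : ℕ | ∃ F : Finset G, F.Nonempty ∧ F.card = k ∧
        n * ((F * (S ∪ S⁻¹)) \ F).card ≤ F.card}
      ≤ C * Nat.card {g : G | ∃ l : List G, l.length ≤ C * n ∧
          (∀ x ∈ l, x ∈ S ∨ x⁻¹ ∈ S) ∧ l.prod = g} ∧
    Nat.card {g : G | ∃ l : List G, l.length ≤ n ∧
          (∀ x ∈ l, x ∈ S ∨ x⁻¹ ∈ S) ∧ l.prod = g}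
      ≤ C * sInf {k : ℕ | ∃ F : Finset G, F.Nonempty ∧ F.card = k ∧
          (C * n) * ((F * (S ∪ S⁻¹)) \ F).card ≤ F.card}

/-- The Følner function is at most exponential: Føl(n) ≤ C^(n+1) for all n. -/
def FolAtMostExp (G : Type) [Group G] (S : Finset G) : Prop :=
  ∃ C : ℕ, ∀ n : ℕ, ∃ F : Finset G, F.Nonempty ∧
    n * ((F * (S ∪ S⁻¹)) \ F).card ≤ F.card ∧ F.card ≤ C ^ (n + 1)

/-- The conclusion of Q1, word for word as in the frozen statement: finite Assouad–Nagata dimension. -/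
def FiniteAN (G : Type) [Group G] (S : Finset G) : Prop :=
  ∃ m c : ℕ, ∀ r : ℕ, 0 < r →
    ∃ (col : G → Fin (m + 1)) (p : G → G),
      (∀ g h : G, col g = col h →
        (∃ l : List G, l.length ≤ r ∧ (∀ x ∈ l, x ∈ S ∨ x⁻¹ ∈ S) ∧ g * l.prod = h) →
        p g = p h) ∧
      (∀ g h : G, p g = p h →
        ∃ l : List G, l.length ≤ c * r ∧ (∀ x ∈ l, x ∈ S ∨ x⁻¹ ∈ S) ∧ g * l.prod = h)

/-- Q1 for virtually metabelian groups. -/
theorem result :
    ∀ (G : Type) [Group G] (S : Finset G), Subgroup.closure (S : Set G) = ⊤ →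
      (∃ H : Subgroup G, H.index ≠ 0 ∧ ⁅⁅H, H⁆, ⁅H, H⁆⁆ = ⊥) →
      (FolSimV G S ∨ FolAtMostExp G S) → FiniteAN G S := by
  intro G _ S hS ⟨H, hH, hmet⟩ hF
  have hcomm : ∀ a ∈ ⁅H, H⁆, ∀ b ∈ ⁅H, H⁆, a * b = b * a := by
    intro a ha b hb
    have h1 := Subgroup.commutator_eq_bot_iff_le_centralizer.mp hmet
    exact (Subgroup.mem_centralizer_iff.mp (h1 ha) b hb).symm
  have hfol : Pool.MP4dac8d.FolExp S := by
    rcases hF with h | h
    · exact Pool.MP4dac8d.folExp_of_hyp S h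
    · obtain ⟨C, hC⟩ := h
      refine ⟨C + 1, Nat.succ_pos C, fun n => ?_⟩
      obtain ⟨F, h1, h2, h3⟩ := hC n
      exact ⟨F, h1, h2, h3.trans (Nat.pow_le_pow_left (Nat.le_succ C) _)⟩
  obtain ⟨m, c, h⟩ := Pool.MP4dac8d.finAN_of_folExp S hS hfol H hH hcomm
  refine ⟨m, c, fun r hr => ?_⟩
  obtain ⟨col, p, h1, h2⟩ := h r hr
  refine ⟨col, p, fun g k hcol hl => h1 g k hcol ?_, fun g k hp => ?_⟩
  · obtain ⟨l, hl1, hl2, hl3⟩ := hl
    exact ⟨l, hl1, hl2, by rw [← hl3]; group⟩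
  · obtain ⟨l, hl1, hl2, hl3⟩ := h2 g k hp
    exact ⟨l, hl1, hl2, by rw [hl3]; group⟩

end Pool.Agent.Results.MP_4dac8d_al.VirtuallyMetabelian
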